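import Mathlib

/-!
# Project PM: Fredholm's alternative for weakly null right hand sides (abstract form)
-/

set_option autoImplicit false

open Filter Topology
open scoped InnerProductSpace

namespace Pool.Agent.E8helper60.PM

theorem abs_fred {H L : Type*} [NormedAddCommGroup H] [InnerProductSpace ℂ H] [CompleteSpace H]
    [NormedAddCommGroup L] [InnerProductSpace ℂ L] [CompleteSpace L] (P : H →L[ℂ] L) (c : ℂ)
    (hc : ∀ x : ℕ → H, (∃ M, ∀ n, ‖x n‖ ≤ M) →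
      ∃ τ : ℕ → ℕ, StrictMono τ ∧ CauchySeq fun n => P (x (τ n)))
    (hinj : ∀ X : H, (∀ y, ⟪y, X⟫_ℂ = c * ⟪P y, P X⟫_ℂ) → P X = 0)
    (x : ℕ → H) (C : ℝ) (h1 : ∀ n y, ‖⟪y, x n⟫_ℂ - c * ⟪P y, P (x n)⟫_ℂ‖ ≤ C * ‖y‖)
    (h2 : ∀ y, Tendsto (fun n => ⟪y, x n⟫_ℂ - c * ⟪P y, P (x n)⟫_ℂ) atTop (𝓝 0)) :
    Tendsto (fun n => ‖P (x n)‖) atTop (𝓝 0) := by
  by_contra hcon
  have h3 : ∃ ε : ℝ, 0 < ε ∧ ∃ᶠ n in atTop, ε ≤ ‖P (x n)‖ := by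
    rw [Metric.tendsto_atTop] at hcon
    push Not at hcon
    obtain ⟨ε, hε, h⟩ := hcon
    refine ⟨ε, hε, ?_⟩
    rw [frequently_atTop]
    intro N
    obtain ⟨n, hn, h4⟩ := h N
    refine ⟨n, hn, ?_⟩
    rwa [Real.dist_eq, sub_zero, abs_of_nonneg (norm_nonneg _)] at h4
  obtain ⟨ε, hε, h4⟩ := h3
  obtain ⟨σ, hσ, h5⟩ := extraction_of_frequently_atTop h4
  set a : ℕ → ℝ := fun n => ‖P (x (σ n))‖ with ha
  have ha0 : ∀ n, 0 < a n := fun n => hε.trans_le (h5 n)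
  have hainv : ∀ n, (a n)⁻¹ ≤ ε⁻¹ := fun n => inv_anti₀ hε (h5 n)
  set z : ℕ → H := fun n => (((a n)⁻¹ : ℝ) : ℂ) • x (σ n) with hz
  have hna : ∀ n, ‖(((a n)⁻¹ : ℝ) : ℂ)‖ = (a n)⁻¹ := fun n => by
    rw [Complex.norm_real, Real.norm_of_nonneg (inv_nonneg.2 (ha0 n).le)]
  have hPz : ∀ n, ‖P (z n)‖ = 1 := fun n => by
    simp only [hz, map_smul, norm_smul, hna]
    exact inv_mul_cancel₀ (ha0 n).ne'
  have hl : ∀ n y, ⟪y, z n⟫_ℂ - c * ⟪P y, P (z n)⟫_ℂ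
      = (((a n)⁻¹ : ℝ) : ℂ) * (⟪y, x (σ n)⟫_ℂ - c * ⟪P y, P (x (σ n))⟫_ℂ) := fun n y => by
    simp only [hz, map_smul, inner_smul_right]
    ring
  have hC : 0 ≤ |C| * ε⁻¹ := mul_nonneg (abs_nonneg _) (inv_nonneg.2 hε.le)
  have h1' : ∀ n y, ‖⟪y, z n⟫_ℂ - c * ⟪P y, P (z n)⟫_ℂ‖ ≤ |C| * ε⁻¹ * ‖y‖ := fun n y => by
    rw [hl, norm_mul, hna]
    calc (a n)⁻¹ * ‖⟪y, x (σ n)⟫_ℂ - c * ⟪P y, P (x (σ n))⟫_ℂ‖
        ≤ ε⁻¹ * (|C| * ‖y‖) := by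
          apply mul_le_mul (hainv n) _ (norm_nonneg _) (inv_nonneg.2 hε.le)
          exact (h1 _ y).trans (mul_le_mul_of_nonneg_right (le_abs_self C) (norm_nonneg _))
      _ = |C| * ε⁻¹ * ‖y‖ := by ring
  have h2' : ∀ y, Tendsto (fun n => ⟪y, z n⟫_ℂ - c * ⟪P y, P (z n)⟫_ℂ) atTop (𝓝 0) := fun y => by
    have h6 := ((h2 y).comp hσ.tendsto_atTop).norm.const_mul ε⁻¹
    rw [norm_zero, mul_zero] at h6
    refine squeeze_zero_norm (fun n => ?_) h6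
    rw [hl, norm_mul, hna]
    exact mul_le_mul_of_nonneg_right (hainv n) (norm_nonneg _)
  have hbd : ∀ n, ‖z n‖ ≤ ‖c‖ + |C| * ε⁻¹ + 1 := fun n => by
    have h6 := h1' n (z n)
    rw [inner_self_eq_norm_sq_to_K, inner_self_eq_norm_sq_to_K, hPz] at h6
    have h7 : ‖z n‖ ^ 2 ≤ ‖c‖ + |C| * ε⁻¹ * ‖z n‖ := by
      have h8 : ‖((‖z n‖ : ℂ)) ^ 2‖ = ‖z n‖ ^ 2 := by
        rw [norm_pow, Complex.norm_real, norm_norm]
      have h9 : ((‖z n‖ : ℂ)) ^ 2 = (((‖z n‖ : ℂ)) ^ 2 - c * ((1 : ℝ) : ℂ) ^ 2) + c := by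
        simp
      calc ‖z n‖ ^ 2 = ‖((‖z n‖ : ℂ)) ^ 2‖ := h8.symm
        _ = ‖(((‖z n‖ : ℂ)) ^ 2 - c * ((1 : ℝ) : ℂ) ^ 2) + c‖ := by rw [← h9]
        _ ≤ ‖((‖z n‖ : ℂ)) ^ 2 - c * ((1 : ℝ) : ℂ) ^ 2‖ + ‖c‖ := norm_add_le _ _
        _ ≤ |C| * ε⁻¹ * ‖z n‖ + ‖c‖ := by gcongr; exact h6
        _ = _ := by ring
    by_contra h8
    push Not at h8
    have h9 := norm_nonneg c
    nlinarith
  obtain ⟨τ, hτ, hcs⟩ := hc z ⟨_, hbd⟩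
  obtain ⟨W, hW⟩ := cauchySeq_tendsto_of_complete hcs
  have hW1 : ‖W‖ = 1 := by
    have h6 := hW.norm
    simp only [hPz] at h6
    exact (tendsto_nhds_unique h6 tendsto_const_nhds)
  set X : H := c • (ContinuousLinearMap.adjoint P) W with hX
  have hXi : ∀ y, ⟪y, X⟫_ℂ = c * ⟪P y, W⟫_ℂ := fun y => by
    rw [hX, inner_smul_right, ContinuousLinearMap.adjoint_inner_right]
  have hlim : ∀ y, Tendsto (fun n => ⟪y, z (τ n)⟫_ℂ) atTop (𝓝 ⟪y, X⟫_ℂ) := fun y => by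
    have h6 := (h2' y).comp hτ.tendsto_atTop
    have h7 : Tendsto (fun n => c * ⟪P y, P (z (τ n))⟫_ℂ) atTop (𝓝 (c * ⟪P y, W⟫_ℂ)) :=
      (tendsto_const_nhds.inner hW).const_mul c
    have h8 := h6.add h7
    rw [zero_add, ← hXi] at h8
    refine h8.congr fun n => ?_
    simp [Function.comp]
  have hPX : P X = W := by
    refine ext_inner_left ℂ fun u => ?_
    rw [← ContinuousLinearMap.adjoint_inner_left]
    refine tendsto_nhds_unique (hlim _) ?_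
    refine ((tendsto_const_nhds (x := u)).inner hW).congr fun n => ?_
    rw [ContinuousLinearMap.adjoint_inner_left]
  have h6 := hinj X fun y => by rw [hXi, hPX]
  rw [hPX] at h6
  rw [h6, norm_zero] at hW1
  exact zero_ne_one hW1

end Pool.Agent.E8helper60.PM
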