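import Pool.Agent.E8helper19.PM.Stm
import Pool.Agent.E8helper60.PM.Abs

/-!
# Project PM: Fredholm's alternative (`S_FRED`)
-/

set_option autoImplicit false
open MeasureTheory Filter Topology Set
open scoped ContDiff ENNReal Real InnerProductSpace

namespace Pool.Agent.E8helper60.PM

open Pool.Agent.E8helper19.PM

noncomputable section

section Lp

variable {F : Type} [NormedAddCommGroup F] [InnerProductSpace ℂ F] {μ : Measure E}

theorem norm_sq_Lp (x : Lp F 2 μ) : ‖x‖ ^ 2 = ∫ a, ‖x a‖ ^ 2 ∂μ := by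
  have h1 : ((‖x‖ ^ 2 : ℝ) : ℂ) = ((∫ a, ‖x a‖ ^ 2 ∂μ : ℝ) : ℂ) := by
    have h2 := inner_self_eq_norm_sq_to_K (𝕜 := ℂ) x
    rw [L2.inner_def] at h2
    have h3 : ((∫ a, ‖x a‖ ^ 2 ∂μ : ℝ) : ℂ) = ∫ a, ((‖x a‖ ^ 2 : ℝ) : ℂ) ∂μ :=
      (integral_ofReal (𝕜 := ℂ)).symm
    rw [h3, Complex.ofReal_pow]
    refine h2.symm.trans (integral_congr_ae (ae_of_all _ fun a => ?_))
    simp only [Complex.ofReal_pow]
    exact inner_self_eq_norm_sq_to_K (𝕜 := ℂ) (x a)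
  exact_mod_cast h1

theorem norm_sq_toLp {w : E → F} (hw : MemLp w 2 μ) : ‖hw.toLp w‖ ^ 2 = ∫ a, ‖w a‖ ^ 2 ∂μ := by
  rw [norm_sq_Lp]
  refine integral_congr_ae (hw.coeFn_toLp.mono fun a ha => ?_)
  simp only [ha]

theorem inner_toLp {w v : E → F} (hw : MemLp w 2 μ) (hv : MemLp v 2 μ) :
    ⟪hw.toLp w, hv.toLp v⟫_ℂ = ∫ a, ⟪w a, v a⟫_ℂ ∂μ := by
  rw [L2.inner_def]
  refine integral_congr_ae ?_
  filter_upwards [hw.coeFn_toLp, hv.coeFn_toLp] with a h1 h2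
  simp only [h1, h2]

theorem integrable_inner_of_memLp {w v : E → F} (hw : MemLp w 2 μ) (hv : MemLp v 2 μ) :
    Integrable (fun a => ⟪w a, v a⟫_ℂ) μ := by
  refine (L2.integrable_inner (𝕜 := ℂ) (hw.toLp w) (hv.toLp v)).congr ?_
  filter_upwards [hw.coeFn_toLp, hv.coeFn_toLp] with a h1 h2
  simp only [h1, h2]

omit [InnerProductSpace ℂ F] in
theorem integrable_sq_of_memLp {w : E → F} (hw : MemLp w 2 μ) :
    Integrable (fun a => ‖w a‖ ^ 2) μ := (memLp_two_iff_integrable_sq_norm hw.1).1 hw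

end Lp

/-- pairs of a function and its gradient -/
abbrev HH (U : Set E) : Type :=
  WithLp 2 (Lp ℂ 2 (volume.restrict U) × Lp C3 2 (volume.restrict U))

variable {Ω U : Set E}

/-- the pair `(w, g)` -/
def mk {w : E → ℂ} {g : E → C3} (hw : MemLp w 2 (volume.restrict U))
    (hg : MemLp g 2 (volume.restrict U)) : HH U := WithLp.toLp 2 (hw.toLp w, hg.toLp g)

theorem norm_mk_sq {w : E → ℂ} {g : E → C3} (hw : MemLp w 2 (volume.restrict U))
    (hg : MemLp g 2 (volume.restrict U)) :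
    ‖mk hw hg‖ ^ 2 = ∫ y in U, (‖w y‖ ^ 2 + ‖g y‖ ^ 2) := by
  rw [WithLp.prod_norm_sq_eq_of_L2,
    integral_add (integrable_sq_of_memLp hw) (integrable_sq_of_memLp hg)]
  exact congrArg₂ (· + ·) (norm_sq_toLp hw) (norm_sq_toLp hg)

theorem inner_mk {w w' : E → ℂ} {g g' : E → C3} (hw : MemLp w 2 (volume.restrict U))
    (hg : MemLp g 2 (volume.restrict U)) (hw' : MemLp w' 2 (volume.restrict U))
    (hg' : MemLp g' 2 (volume.restrict U)) :
    ⟪mk hw hg, mk hw' hg'⟫_ℂ = (∫ y in U, ⟪w y, w' y⟫_ℂ) + ∫ y in U, ⟪g y, g' y⟫_ℂ := by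
  rw [WithLp.prod_inner_apply]
  exact congrArg₂ (· + ·) (inner_toLp hw hw') (inner_toLp hg hg')

theorem mk_sub {w w' : E → ℂ} {g g' : E → C3} (hw : MemLp w 2 (volume.restrict U))
    (hg : MemLp g 2 (volume.restrict U)) (hw' : MemLp w' 2 (volume.restrict U))
    (hg' : MemLp g' 2 (volume.restrict U)) :
    mk hw hg - mk hw' hg' = mk (hw.sub hw') (hg.sub hg') := by
  unfold mk
  rw [MemLp.toLp_sub hw hw', MemLp.toLp_sub hg hg']
  rfl

theorem memLp_tst {f : E → ℂ} (hf : Tst Ω f) : MemLp f 2 (volume.restrict U) :=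
  (hf.smooth.continuous.memLp_of_hasCompactSupport hf.cpt).restrict U

theorem continuous_gr {f : E → ℂ} (hf : ContDiff ℝ ∞ f) : Continuous (gr f) := by
  have h1 : ∀ j, Continuous (pd j f) := fun j =>
    (hf.continuous_fderiv (by simp)).clm_apply continuous_const
  have h2 : Continuous fun y => (fun j => pd j f y : Fin 3 → ℂ) := continuous_pi h1
  exact (PiLp.continuous_toLp 2 _).comp h2

theorem cpt_gr {f : E → ℂ} (hf : HasCompactSupport f) : HasCompactSupport (gr f) := by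
  have h1 := hf.fderiv (𝕜 := ℝ)
  refine h1.comp_left (g := fun L : E →L[ℝ] ℂ =>
    (WithLp.toLp 2 fun j => L (EuclideanSpace.single j 1) : C3)) ?_
  ext j
  simp

theorem memLp_gr {f : E → ℂ} (hf : Tst Ω f) : MemLp (gr f) 2 (volume.restrict U) :=
  ((continuous_gr hf.smooth).memLp_of_hasCompactSupport (cpt_gr hf.cpt)).restrict U

theorem tst_zero : Tst Ω 0 where
  smooth := contDiff_const
  cpt := HasCompactSupport.zero
  supp := by simp [tsupport]

theorem tst_add {f g : E → ℂ} (hf : Tst Ω f) (hg : Tst Ω g) : Tst Ω (f + g) where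
  smooth := hf.smooth.add hg.smooth
  cpt := hf.cpt.add hg.cpt
  supp := (tsupport_add f g).trans (union_subset hf.supp hg.supp)

theorem tst_smul {f : E → ℂ} (c : ℂ) (hf : Tst Ω f) : Tst Ω (c • f) where
  smooth := contDiff_const.smul hf.smooth
  cpt := hf.cpt.smul_left (f := fun _ => c)
  supp := (tsupport_smul_subset_right (fun _ => c) f).trans hf.supp

theorem gr_zero : gr 0 = 0 := by
  funext y
  ext j
  simp [gr, pd]

theorem gr_add {f g : E → ℂ} (hf : ContDiff ℝ ∞ f) (hg : ContDiff ℝ ∞ g) :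
    gr (f + g) = gr f + gr g := by
  funext y
  ext j
  simp only [gr, pd, Pi.add_apply, PiLp.add_apply]
  rw [fderiv_add (hf.differentiable (by simp) y) (hg.differentiable (by simp) y)]
  rfl

theorem gr_smul {f : E → ℂ} (c : ℂ) (hf : ContDiff ℝ ∞ f) : gr (c • f) = c • gr f := by
  funext y
  ext j
  simp only [gr, pd, Pi.smul_apply, PiLp.smul_apply]
  rw [fderiv_const_smul (hf.differentiable (by simp) y)]
  rfl

/-- the pair `(f, ∇f)` -/
def J {f : E → ℂ} (hf : Tst Ω f) : HH U := mk (memLp_tst hf) (memLp_gr hf)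

/-- the pairs `(f, ∇f)`, `f` a test function -/
def S0 (Ω U : Set E) : Submodule ℂ (HH U) where
  carrier := {x | ∃ f, ∃ hf : Tst Ω f, x = J hf}
  zero_mem' := by
    refine ⟨0, tst_zero, ?_⟩
    have h1 : ‖(J (tst_zero (Ω := Ω)) : HH U)‖ ^ 2 = 0 := by
      rw [J, norm_mk_sq, gr_zero]
      simp
    exact (norm_eq_zero.1 (pow_eq_zero_iff two_ne_zero |>.1 h1)).symm
  add_mem' := by
    rintro _ _ ⟨f, hf, rfl⟩ ⟨g, hg, rfl⟩
    refine ⟨f + g, tst_add hf hg, ?_⟩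
    have h1 : (memLp_gr (tst_add hf hg) (U := U)).toLp (gr (f + g))
        = ((memLp_gr hf (U := U)).add (memLp_gr hg)).toLp (gr f + gr g) :=
      MemLp.toLp_congr _ _ (ae_of_all _ fun y => by rw [gr_add hf.smooth hg.smooth])
    unfold J mk
    rw [h1, MemLp.toLp_add (memLp_gr hf) (memLp_gr hg)]
    have h2 : (memLp_tst (tst_add hf hg) (U := U)).toLp (f + g)
        = (memLp_tst hf (U := U)).toLp f + (memLp_tst hg (U := U)).toLp g :=
      MemLp.toLp_add (memLp_tst hf) (memLp_tst hg)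
    rw [h2]
    rfl
  smul_mem' := by
    rintro c _ ⟨f, hf, rfl⟩
    refine ⟨c • f, tst_smul c hf, ?_⟩
    have h1 : (memLp_gr (tst_smul c hf) (U := U)).toLp (gr (c • f))
        = ((memLp_gr hf (U := U)).const_smul c).toLp (c • gr f) :=
      MemLp.toLp_congr _ _ (ae_of_all _ fun y => by rw [gr_smul c hf.smooth])
    unfold J mk
    rw [h1, MemLp.toLp_const_smul c (memLp_gr hf)]
    have h2 : (memLp_tst (tst_smul c hf) (U := U)).toLp (c • f)
        = c • (memLp_tst hf (U := U)).toLp f := MemLp.toLp_const_smul c (memLp_tst hf)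
    rw [h2]
    rfl

/-- the closure -/
abbrev VV (Ω U : Set E) : Submodule ℂ (HH U) := (S0 Ω U).topologicalClosure

/-- the first component -/
def P1 (U : Set E) : HH U →L[ℂ] Lp ℂ 2 (volume.restrict U) := WithLp.fstL 2 ℂ _ _

theorem norm_P1_le (x : HH U) : ‖P1 U x‖ ≤ ‖x‖ := by
  have h1 := WithLp.prod_norm_sq_eq_of_L2 x
  have h2 : P1 U x = x.fst := rfl
  rw [h2]
  refine le_of_sq_le_sq ?_ (norm_nonneg _)
  rw [h1]
  linarith [sq_nonneg ‖x.snd‖]

theorem J_mem {f : E → ℂ} (hf : Tst Ω f) : (J hf : HH U) ∈ VV Ω U :=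
  (S0 Ω U).le_topologicalClosure ⟨f, hf, rfl⟩

theorem mem_VV {x : HH U} :
    x ∈ VV Ω U ↔ ∀ ε > 0, ∃ f, ∃ hf : Tst Ω f, ‖x - J hf‖ < ε := by
  change x ∈ closure (S0 Ω U : Set (HH U)) ↔ _
  rw [Metric.mem_closure_iff]
  constructor
  · intro h ε hε
    obtain ⟨_, ⟨f, hf, rfl⟩, h1⟩ := h ε hε
    exact ⟨f, hf, by rwa [dist_eq_norm] at h1⟩
  · intro h ε hε
    obtain ⟨f, hf, h1⟩ := h ε hε
    exact ⟨J hf, ⟨f, hf, rfl⟩, by rwa [dist_eq_norm]⟩

theorem norm_J_sq {f : E → ℂ} (hf : Tst Ω f) : ‖(J hf : HH U)‖ ^ 2 = H1 U f := norm_mk_sq _ _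

theorem norm_mk_sub_J_sq {f w : E → ℂ} {g : E → C3} (hw : MemLp w 2 (volume.restrict U))
    (hg : MemLp g 2 (volume.restrict U)) (hf : Tst Ω f) :
    ‖mk hw hg - J hf‖ ^ 2 = ∫ y in U, (‖w y - f y‖ ^ 2 + ‖g y - gr f y‖ ^ 2) := by
  rw [J, mk_sub, norm_mk_sq]
  rfl

theorem form_eq (k : ℝ) {f w : E → ℂ} {g : E → C3} (hw : MemLp w 2 (volume.restrict U))
    (hg : MemLp g 2 (volume.restrict U)) (hf : Tst Ω f) :
    form k U w g f = ⟪J hf, mk hw hg⟫_ℂ
      - (1 + (k : ℂ) ^ 2) * ⟪P1 U (J hf), P1 U (mk hw hg)⟫_ℂ := by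
  have h1 : ⟪P1 U (J hf), P1 U (mk hw hg)⟫_ℂ = ∫ y in U, ⟪f y, w y⟫_ℂ :=
    inner_toLp (memLp_tst hf) hw
  rw [h1, J, inner_mk]
  unfold form
  have h2 : (fun y => ⟪gr f y, g y⟫_ℂ - ((k ^ 2 : ℝ) : ℂ) * ((starRingEnd ℂ) (f y) * w y))
      = fun y => ⟪gr f y, g y⟫_ℂ - ((k : ℂ) ^ 2) * ⟪f y, w y⟫_ℂ := by
    funext y
    rw [RCLike.inner_apply]
    push_cast
    ring
  rw [h2, integral_sub (integrable_inner_of_memLp (memLp_gr hf) hg)
    ((integrable_inner_of_memLp (memLp_tst hf) hw).const_mul _), integral_const_mul]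
  ring

theorem norm_tri {L : Type*} [NormedAddCommGroup L] (a b c : L) :
    ‖a + b - c‖ ≤ ‖a‖ + ‖b‖ + ‖c‖ :=
  (norm_sub_le _ _).trans (add_le_add_left (norm_add_le _ _) _)

/-- a form which is bounded on the test functions -/
theorem bdd_of_tst (c : ℂ) {C : ℝ} (x : HH U)
    (h : ∀ f (hf : Tst Ω f), ‖⟪(J hf : HH U), x⟫_ℂ - c * ⟪P1 U (J hf), P1 U x⟫_ℂ‖
      ≤ C * ‖(J hf : HH U)‖) {y : HH U} (hy : y ∈ VV Ω U) :
    ‖⟪y, x⟫_ℂ - c * ⟪P1 U y, P1 U x⟫_ℂ‖ ≤ C * ‖y‖ := by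
  have hcl : IsClosed {y : HH U | ‖⟪y, x⟫_ℂ - c * ⟪P1 U y, P1 U x⟫_ℂ‖ ≤ C * ‖y‖} := by
    refine isClosed_le ?_ (continuous_const.mul continuous_norm)
    refine Continuous.norm ((continuous_id.inner continuous_const).sub ?_)
    exact continuous_const.mul (((P1 U).continuous).inner continuous_const)
  refine closure_minimal ?_ hcl hy
  rintro _ ⟨f, hf, rfl⟩
  exact h f hf

theorem t_FRED (h : S_RO) : S_FRED := by
  intro k C Ω D w g hΩ hb hD hDΩ hne hV hC h0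
  set U : Set E := Ω \ closure D with hU
  set c : ℂ := 1 + (k : ℂ) ^ 2 with hc
  have hmem : ∀ n, mk (hV n).w2 (hV n).g2 ∈ VV Ω U := fun n => by
    rw [mem_VV]
    intro ε hε
    obtain ⟨f, hf, h1⟩ := (hV n).lim (ε ^ 2) (by positivity)
    refine ⟨f, hf, ?_⟩
    rw [← norm_mk_sub_J_sq (hV n).w2 (hV n).g2 hf] at h1
    exact lt_of_pow_lt_pow_left₀ 2 hε.le h1
  have hform : ∀ n f (hf : Tst Ω f), form k U (w n) (g n) f
      = ⟪(J hf : HH U), mk (hV n).w2 (hV n).g2⟫_ℂ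
        - c * ⟪P1 U (J hf), P1 U (mk (hV n).w2 (hV n).g2)⟫_ℂ := fun n f hf =>
    form_eq k _ _ hf
  have hbd : ∀ n (y : HH U), y ∈ VV Ω U → ‖⟪y, mk (hV n).w2 (hV n).g2⟫_ℂ
        - c * ⟪P1 U y, P1 U (mk (hV n).w2 (hV n).g2)⟫_ℂ‖ ≤ C * ‖y‖ := fun n y hy => by
    refine bdd_of_tst c _ (fun f hf => ?_) hy
    rw [← hform]
    refine (hC n f hf).trans (le_of_eq ?_)
    rw [← norm_J_sq hf, Real.sqrt_sq (norm_nonneg _)]
  have key := abs_fred ((P1 U).comp (VV Ω U).subtypeL) c ?_ ?_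
    (fun n => ⟨mk (hV n).w2 (hV n).g2, hmem n⟩) C ?_ ?_
  · have h1 := key.pow 2
    rw [zero_pow two_ne_zero] at h1
    refine h1.congr fun n => ?_
    exact norm_sq_toLp (hV n).w2
  · -- compactness
    rintro x ⟨M, hM⟩
    have h1 : ∀ n, ∃ f, ∃ hf : Tst Ω f, ‖(x n : HH U) - J hf‖ < 1 / ((n : ℝ) + 1) := fun n =>
      mem_VV.1 (x n).2 _ (by positivity)
    choose f hf h2 using h1
    have h3 : ∀ n, H1 U (f n) ≤ (M + 1) ^ 2 := fun n => by
      rw [← norm_J_sq (hf n)]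
      have h4 : ‖(J (hf n) : HH U)‖ ≤ M + 1 := by
        calc ‖(J (hf n) : HH U)‖ = ‖(x n : HH U) - ((x n : HH U) - J (hf n))‖ := by
              rw [sub_sub_cancel]
          _ ≤ ‖(x n : HH U)‖ + ‖(x n : HH U) - J (hf n)‖ := norm_sub_le _ _
          _ ≤ M + 1 := by
            refine add_le_add (hM n) ((h2 n).le.trans ?_)
            rw [div_le_one (by positivity)]
            linarith [(n.cast_nonneg : (0 : ℝ) ≤ n)]
      exact pow_le_pow_left₀ (norm_nonneg _) h4 2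
    obtain ⟨τ, hτ, h5⟩ := h Ω D _ f hΩ hb hD hDΩ hf h3
    refine ⟨τ, hτ, ?_⟩
    rw [Metric.cauchySeq_iff]
    intro ε hε
    obtain ⟨N1, hN1⟩ := exists_nat_gt (3 / ε)
    obtain ⟨N2, hN2⟩ := h5 ((ε / 4) ^ 2) (by positivity)
    refine ⟨max N1 N2, fun m hm n hn => ?_⟩
    have h6 : ∀ m ≥ max N1 N2, ‖P1 U ((x (τ m) : HH U) - J (hf (τ m)))‖ < ε / 3 := fun m hm => by
      refine (norm_P1_le _).trans_lt ((h2 _).trans ?_)
      have h7 : (N1 : ℝ) ≤ τ m := by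
        exact_mod_cast ((le_max_left _ _).trans hm).trans (hτ.id_le m)
      rw [div_lt_iff₀ (by positivity)]
      rw [div_lt_iff₀ hε] at hN1
      nlinarith
    have h7 : ‖P1 U (J (hf (τ m))) - P1 U (J (hf (τ n)))‖ < ε / 3 := by
      have h8 : ‖P1 U (J (hf (τ m))) - P1 U (J (hf (τ n)))‖ ^ 2
          = ∫ y in U, ‖f (τ m) y - f (τ n) y‖ ^ 2 := by
        have h9 : P1 U (J (hf (τ m))) - P1 U (J (hf (τ n)))
            = ((memLp_tst (hf (τ m)) (U := U)).sub (memLp_tst (hf (τ n)))).toLp _ :=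
          (MemLp.toLp_sub (memLp_tst (hf (τ m))) (memLp_tst (hf (τ n)))).symm
        rw [h9, norm_sq_toLp]
        rfl
      have h10 := hN2 m ((le_max_right _ _).trans hm) n ((le_max_right _ _).trans hn)
      rw [← h8] at h10
      have h11 := le_of_sq_le_sq h10 (by positivity)
      linarith
    rw [dist_eq_norm]
    have h8 : ((P1 U).comp (VV Ω U).subtypeL) (x (τ m)) - ((P1 U).comp (VV Ω U).subtypeL) (x (τ n))
        = P1 U ((x (τ m) : HH U) - J (hf (τ m))) + (P1 U (J (hf (τ m))) - P1 U (J (hf (τ n))))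
          - P1 U ((x (τ n) : HH U) - J (hf (τ n))) := by
      simp only [map_sub]
      change P1 U _ - P1 U _ = _
      abel
    rw [h8]
    have h12 := norm_tri (P1 U ((x (τ m) : HH U) - J (hf (τ m))))
      (P1 U (J (hf (τ m))) - P1 U (J (hf (τ n)))) (P1 U ((x (τ n) : HH U) - J (hf (τ n))))
    have h13 := h6 m hm
    have h14 := h6 n hn
    linarith
  · -- injectivity
    intro X hX
    have hm1 : MemLp ((X : HH U).fst : E → ℂ) 2 (volume.restrict U) := Lp.memLp _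
    have hm2 : MemLp ((X : HH U).snd : E → C3) 2 (volume.restrict U) := Lp.memLp _
    have hXm : mk hm1 hm2 = (X : HH U) := by
      unfold mk
      rw [Lp.toLp_coeFn, Lp.toLp_coeFn]
      rfl
    have h1 := hne _ _ (⟨hm1, hm2, fun ε hε => ?_⟩ : Van Ω D _ _) fun f hf => ?_
    · exact (Lp.eq_zero_iff_ae_eq_zero).2 h1
    · obtain ⟨f, hf, h2⟩ := mem_VV.1 X.2 (√ε) (Real.sqrt_pos.2 hε)
      refine ⟨f, hf, ?_⟩
      rw [← norm_mk_sub_J_sq hm1 hm2 hf, hXm]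
      calc _ < (√ε) ^ 2 := pow_lt_pow_left₀ h2 (norm_nonneg _) two_ne_zero
        _ = ε := Real.sq_sqrt hε.le
    · rw [form_eq k hm1 hm2 hf, hXm]
      have h2 := hX ⟨J hf, J_mem hf⟩
      exact sub_eq_zero.2 h2
  · intro n y
    exact hbd n y y.2
  · intro y
    rw [Metric.tendsto_atTop]
    intro ε hε
    obtain ⟨f, hf, h1⟩ := mem_VV.1 y.2 (ε / (2 * (|C| + 1))) (by positivity)
    obtain ⟨N, hN⟩ := Metric.tendsto_atTop.1 (h0 f hf) (ε / 2) (by positivity)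
    refine ⟨N, fun n hn => ?_⟩
    have h2 := hN n hn
    rw [dist_zero_right, hform n f hf] at h2
    have h3 := hbd n ((y : HH U) - J hf) (sub_mem y.2 (J_mem hf))
    rw [dist_zero_right]
    have h4 : ⟪y, (⟨mk (hV n).w2 (hV n).g2, hmem n⟩ : VV Ω U)⟫_ℂ
        - c * ⟪((P1 U).comp (VV Ω U).subtypeL) y,
          ((P1 U).comp (VV Ω U).subtypeL) ⟨mk (hV n).w2 (hV n).g2, hmem n⟩⟫_ℂ
        = (⟪(y : HH U) - J hf, mk (hV n).w2 (hV n).g2⟫_ℂ
          - c * ⟪P1 U ((y : HH U) - J hf), P1 U (mk (hV n).w2 (hV n).g2)⟫_ℂ)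
        + (⟪(J hf : HH U), mk (hV n).w2 (hV n).g2⟫_ℂ
          - c * ⟪P1 U (J hf), P1 U (mk (hV n).w2 (hV n).g2)⟫_ℂ) := by
      change ⟪(y : HH U), mk (hV n).w2 (hV n).g2⟫_ℂ
        - c * ⟪P1 U (y : HH U), P1 U (mk (hV n).w2 (hV n).g2)⟫_ℂ = _
      rw [inner_sub_left, map_sub, inner_sub_left]
      ring
    rw [h4]
    have h5 : C * ‖(y : HH U) - J hf‖ ≤ ε / 2 := by
      calc C * ‖(y : HH U) - J hf‖ ≤ (|C| + 1) * (ε / (2 * (|C| + 1))) := by
            apply mul_le_mul _ h1.le (norm_nonneg _) (by positivity)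
            linarith [le_abs_self C]
        _ = ε / 2 := by
            field_simp
    calc _ ≤ _ := norm_add_le _ _
      _ < ε := by linarith

end

end Pool.Agent.E8helper60.PM
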